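import Pool.Agent.V11322.LG.Lang

set_option autoImplicit false

/-!
# Lang's equivalence for points whose digits form a language

Let `X` and `Z` be the projective varieties over a number field `K`, embedded in `ℂ` by `σ`, given by
the forms in the ideals `I` and `I'` of `K[x_0, ..., x_N]` (for `I' = ⊤` the variety `Z` is empty).

Number systems.  Let `L` be a field containing `K` and `b ∈ L` an element which is not zero and not
a root of unity, the base.  A word in the letters of an alphabet `A` and the separator `none` is read
from the left to the right, starting with the vector `0` in phase `0`.  In phase `i` the coordinates
`x j` with `act i j = true` are active: a letter `a` replaces each of them by `b * x j + δ i a j`,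
where the digits `δ i a j ∈ L` are arbitrary, and the other coordinates remain; the separator starts
the next phase.  The vector after the last letter is `value b act δ w`.

A language `𝓛` is iterative (`Iterative s p 𝓛`) if each of its words of length at least `p` is of the
form `u v₁ u₁ ⋯ v_s u_s`, with `v₁, …, v_s` not all empty, so that all the words
`u v₁ᵏ u₁ ⋯ v_sᵏ u_s`, `k ≥ 0`, belong to `𝓛`.  Context-free languages have this property with
`s = 2` (by the pumping lemma, proved here with an explicit `p`).

The following are equivalent:

* (`NoRat`) there is no nonconstant map from the projective line over `ℂ` to `X` with image not
  contained in `Z`;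
* (`DigitShort`) for ALL fields `L ⊇ K`, bases `b`, alphabets and systems of digits, and all iterative
  languages (with a bounded number of separators in the words) whose words represent points of `X`,
  the represented points outside `Z` are represented by words of length less than `p`;
* (`DigitFinite`) for all number fields `L ⊇ K`, the base `2`, finite alphabets without separators and
  systems of digits in `L` which are the same at all positions: only finitely many of the points of
  `X(L)` represented by the words of an iterative language are outside `Z`.

Both sides of Lang's conjecture, the hyperbolicity of `X_σ` modulo `Z` and the finiteness of
`X(L) \ Z(L)` for all finite extensions `L`, imply these conditions; so the two sides of the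
conjecture are equivalent, when the finiteness is asked for the points given by iterative languages
of digits and the hyperbolicity for rational curves.
-/

namespace Pool.Agent.Results.MP_f82ddf_nt.DigitLang

open MvPolynomial Pool.Agent.TH138.LG Pool.Agent.Y719.SU Pool.Agent.V11322.LG

theorem result {K : Type} [Field K] [NumberField K] (σ : K →+* ℂ) {N : ℕ}
    (I I' : Ideal (MvPolynomial (Fin (N + 1)) K)) :
    List.TFAE [NoRat σ I I', DigitShort I I', DigitFinite I I'] ∧
    (Hyperbolic σ I I' → DigitShort I I') ∧ (Finiteness I I' → DigitShort I I') ∧
    ∀ (T : Type) (g : ContextFreeGrammar T),
      Iterative 2 (width g ^ (inputs g).card + 1) g.language :=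
  ⟨(digit_main σ I I').1, (digit_main σ I I').2.1, (digit_main σ I I').2.2,
    fun _ g => iterative_of_grammar g⟩

end Pool.Agent.Results.MP_f82ddf_nt.DigitLang
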