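import Mathlib
import Pool.Agent.V35.WAE
import Pool.Agent.W659.SA.Ext

/-!
# Rational points on all hyperbolic covers of subvarieties of `A × ℙⁿ`, in almost every direction

`K ⊆ L` are number fields and `n ≥ 1`. `X` runs over all projective varieties over `K` of the form

  `G_1(P; x) = … = G_q(P; x) = 0, w_1² = F_1(P; x), …, w_m² = F_m(P; x)`, `P ∈ A`, `x ∈ ℙⁿ`,

which are (Brody or Kobayashi) hyperbolic for some embedding `σ : K → ℂ`; here `A = E_1 × … × E_r` runs over the products of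
elliptic curves `y² = x³ + a_i x` or `y² = x³ + b_i` with `a_i, b_i ∈ ℤ`, and the `G_e` and `F_i` are polynomials with
coefficients in `𝓞 K`, multihomogeneous in the coordinates of the plane cubics `E_i` and homogeneous in `x`, of even degrees
in the case of the `F_i`: `(ℤ/2)^m`-covers of closed subvarieties of `A × ℙⁿ`.

With a basis `ω` of `𝓞 L` a vector `x ∈ (𝓞 L)^(n+1)` is a point of `ℤ^((n+1)N)`, `N = [L : ℚ]`. For almost every
`α ∈ ℝ^((n+1)N)`, all rational numbers `β > 1` and ALL `X` there is `δ > 0` such that for large `k` no `x ∈ (𝓞 L)^(n+1)` at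
distance at most `exp (δ k / log k)` from `β ^ k α` has an `L`-rational point of `X` above it.

Proof: the bound for the number of the `x` of size at most `H` over which `X` has an `L`-rational point
(`Pool.Agent.W659.SA.dcExt`, used by the starting result HyperbolicCovers), the Borel-Cantelli argument of
`Pool.Agent.V35.WAE`, and the countability of the data.
-/

set_option autoImplicit false

namespace Pool.Agent.Results.MP_f82ddf_nt.HyperbolicAlmostEveryDirection

open MvPolynomial NumberField Pool.Agent.W659 Pool.Agent.W659.SA MeasureTheory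

/-- there is `δ > 0` such that for large `k` no integer vector at distance at most `exp (δ k / log k)` (in the maximum norm)
from `b ^ k α` has the property `P` -/
def FreeNear {ι : Type} (P : (ι → ℤ) → Prop) (b : ℝ) (α : ι → ℝ) : Prop :=
  ∃ δ : ℝ, 0 < δ ∧ ∃ k0 : ℕ, ∀ k : ℕ, k0 ≤ k → ∀ c : ι → ℤ,
    (∀ j, |(c j : ℝ) - b ^ k * α j| ≤ Real.exp (δ * (k / Real.log k))) → ¬ P c

/-- `X` has an `L`-rational point above the vector `x ∈ (𝓞 L) ^ (n + 1)` with the coordinates `c` -/
def PointAbove (K : Type) [Field K] {L : Type} [Field L] [NumberField L] [Algebra K L] {N : ℕ}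
    (ω : Module.Basis (Fin N) ℤ (𝓞 L)) {r n q m : ℕ} (a b : Fin r → ℤ)
    (G : Fin q → Pol0 (𝓞 K) r n) (F : Fin m → Pol0 (𝓞 K) r n) (c : Fin n × Fin N → ℤ) : Prop :=
  ∃ (V : Fin r → Fin 3 → L) (w : Fin m → L), (∀ i, FD.OnE (a i) (b i) (V i)) ∧
    (∀ e, vl0 (toL K L) (G e) V (fun i => ((vec ω c i : 𝓞 L) : L)) = 0) ∧
    ∀ i, w i ^ 2 = vl0 (toL K L) (F i) V (fun i => ((vec ω c i : 𝓞 L) : L))

/-- `X` is of the form described above, and hyperbolic for some embedding of `K` in `ℂ` -/
def Hyperbolic {K : Type} [Field K] {r n q m : ℕ} (a b : Fin r → ℤ) (G : Fin q → Pol0 (𝓞 K) r (n + 1))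
    (F : Fin m → Pol0 (𝓞 K) r (n + 1)) : Prop :=
  (∀ i, a i * b i = 0 ∧ (a i ≠ 0 ∨ b i ≠ 0)) ∧
    (∃ (d' : Fin q → Fin r → ℕ) (k' : Fin q → ℕ), ∀ e, MHomog (G e) (d' e) ∧ XHomog (G e) (k' e)) ∧
    (∃ (d : Fin m → Fin r → ℕ) (k : Fin m → ℕ), ∀ i, MHomog (F i) (d i) ∧ (∀ j, Even (d i j)) ∧
      XHomog (F i) (k i) ∧ Even (k i)) ∧
    ∃ σ : K →+* ℂ, BrodyHyperbolic σ a b G F

/-! ### Countability -/

theorem cMv (σ R : Type) [Countable σ] [CommRing R] [Countable R] : Countable (MvPolynomial σ R) := by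
  rw [← Cardinal.mk_le_aleph0_iff]
  refine (MvPolynomial.cardinalMk_le_max (σ := σ) (R := R)).trans ?_
  exact max_le (max_le (Cardinal.mk_le_aleph0) (Cardinal.mk_le_aleph0)) le_rfl

theorem cO (K : Type) [Field K] [NumberField K] : Countable (𝓞 K) :=
  (NumberField.RingOfIntegers.basis K).equivFun.injective.countable

/-- **Rational points on all hyperbolic covers, in almost every direction.** -/
theorem result (K : Type) [Field K] [NumberField K] (L : Type) [Field L] [NumberField L] [Algebra K L] (N : ℕ)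
    (ω : Module.Basis (Fin N) ℤ (𝓞 L)) (n : ℕ) (hn : 1 ≤ n) :
    ∀ᵐ α : Fin (n + 1) × Fin N → ℝ, ∀ β : ℚ, 1 < β →
      ∀ (r q m : ℕ) (a b : Fin r → ℤ) (G : Fin q → Pol0 (𝓞 K) r (n + 1)) (F : Fin m → Pol0 (𝓞 K) r (n + 1)),
        Hyperbolic a b G F → FreeNear (PointAbove K ω a b G F) β α := by
  have := cO K
  have : ∀ r : ℕ, Countable (Pol0 (𝓞 K) r (n + 1)) := fun r => cMv _ _
  have key : ∀ (β : ℚ) (r q m : ℕ) (a b : Fin r → ℤ) (G : Fin q → Pol0 (𝓞 K) r (n + 1))
      (F : Fin m → Pol0 (𝓞 K) r (n + 1)),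
      ∀ᵐ α : Fin (n + 1) × Fin N → ℝ, 1 < β → Hyperbolic a b G F → FreeNear (PointAbove K ω a b G F) β α := by
    intro β r q m a b G F
    by_cases hβ : 1 < β
    · by_cases hC : Hyperbolic a b G F
      · obtain ⟨hab, ⟨d', k', hG⟩, ⟨d, k, hF⟩, σ, hyp⟩ := hC
        obtain ⟨c, hc, H₀, h⟩ := dcExt K r n q m a b hab G d' (fun e => (hG e).1) F d (fun i => (hF i).2.1)
          (fun i => (hF i).1) σ (hyp_cond σ hn a b G F hyp) L N ω
        have hb : (1 : ℝ) < (β : ℝ) := by exact_mod_cast hβ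
        obtain ⟨δ, hδ, hae⟩ := Pool.Agent.V35.WAE.ae_windows_exp (ι := Fin (n + 1) × Fin N)
          (P := PointAbove K ω a b G F) hc (H₀ := H₀) (by
            intro H hH
            have h1 : Fintype.card (Fin (n + 1) × Fin N) = (n + 1) * N := by simp
            rw [h1]
            exact h H hH) (β : ℝ) hb
        filter_upwards [hae] with α hα _ _
        obtain ⟨k0, hk0⟩ := hα
        refine ⟨δ, hδ, k0, fun k hk c hc => hk0 k hk c ?_⟩
        refine (pi_norm_le_iff_of_nonneg (Real.exp_pos _).le).2 fun i => ?_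
        rw [Real.norm_eq_abs]
        exact hc i
      · exact Filter.Eventually.of_forall fun α _ h => absurd h hC
    · exact Filter.Eventually.of_forall fun α h => absurd h hβ
  simp only [← ae_all_iff] at key
  filter_upwards [key] with α hα β hβ r q m a b G F hC
  exact hα β r q m a b G F hβ hC

end Pool.Agent.Results.MP_f82ddf_nt.HyperbolicAlmostEveryDirection
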