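import Mathlib
import Pool.Agent.Y719.SU.Main

/-!
# Lang's equivalence for the rational points with coordinates short sums of units

Let `X` and `Z` be the projective varieties over a number field `K`, embedded in `ℂ` by `σ`, given by the
forms in the ideals `I` and `I'` of `K[x_0, ..., x_N]` (for `I' = ⊤` the variety `Z` is empty). Arbitrary
dimensions and singularities are allowed. The following are equivalent:

* (`NoRat`) there is no nonconstant map from the projective line over `ℂ` to `X_σ` with image not
  contained in `Z_σ`;
* (`ExpSum`) all nonconstant entire curves in `X_σ` with homogeneous coordinates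
  `exp (g_1) P_1 + ... + exp (g_r) P_r`, with finitely many arbitrary entire functions `g_j` and
  polynomials `P_j` (which depend on the coordinate), lie in `Z_σ`;
* (`NoRatNF`) the same as `NoRat` over all finite extensions of `K`;
* (`HtBound`) for all finite extensions `L` of `K`, all finitely generated groups `Γ` of rational numbers
  and all `r` there is `C` such that all points of `X(L)` outside of `Z` with homogeneous coordinates
  `u_1 v_1 + ... + u_r v_r`, with `u_j` in `Γ` and vectors `v_j` in `L ^ (N + 1)`, have height at most
  `C (1 + h(v_1, ..., v_r))`;
* (`FinBound`) for all such `L`, `Γ`, `r` and all `B`, there are only finitely many points of `X(L)`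
  outside of `Z` with such homogeneous coordinates and `h(v_1, ..., v_r) ≤ B`.

If all nonconstant entire curves in `X_σ` lie in `Z_σ` (for `Z` empty: if `X_σ` is hyperbolic), then all
these statements are true, and also if `X(L)` without the points of `Z` is finite for all `L`. In
particular, a hyperbolic `X_σ` satisfies the height bound `HtBound` uniformly in the vectors `v_j`, and if
`X(L)` is finite for all finite extensions `L` of `K`, then every entire curve in `X_σ` with homogeneous
coordinates `∑ exp (g_j) P_j` is constant.

The theorem is `Pool.Agent.Y719.SU.main` of the starting library, which is not stated by any starting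
hand-in (the starting hand-in `IteratedLang` uses its definitions; `MP_e97a4d_nt.UnitSumEquivalence` is
about affine varieties and maps from the punctured line, and has no consequences here, as an affine cone
contains the punctured lines through its vertex).
-/

set_option autoImplicit false

namespace Pool.Agent.Results.MP_f82ddf_nt.ShortUnitSums

open Pool.Agent.Y719.SU

/-- **Lang's equivalence for points with coordinates short sums of units, with a height bound uniform in
the coefficients, and for entire curves with coordinates `∑ exp (g_j) P_j`.** -/
theorem result {K : Type} [Field K] [NumberField K] {N : ℕ} (σ : K →+* ℂ)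
    (I I' : Ideal (MvPolynomial (Fin (N + 1)) K)) :
    [NoRat σ I I', ExpSum σ I I', NoRatNF I I', HtBound I I', FinBound I I'].TFAE ∧
    (Hyperbolic σ I I' → HtBound I I') ∧
    (Finiteness I I' → HtBound I I' ∧ ExpSum σ I I') := by
  obtain ⟨h1, h2, h3⟩ := main σ I I'
  refine ⟨h1, h2, fun h => ⟨h3 h, ?_⟩⟩
  have h4 := h1.out 3 1
  exact h4.1 (h3 h)

end Pool.Agent.Results.MP_f82ddf_nt.ShortUnitSums
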