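import Pool.Agent.V1153.UR.Lang

/-!
# Lang's equivalence for curves and points of finite complexity, uniformly in all varieties

Let `X` be a closed subset of the projective space of dimension `n` over a number field `k`, given by
a set `FF` of forms of degree at most `D`, let `Z` be the closed subset `G = 0`, where `G` is a form
of degree at most `D` over `k` (for `G = 1` it is empty), and let `σ` be an embedding of `k` in the
complex numbers. The following are equivalent.

(1) `RatIn σ`: all nonconstant rational curves in `X_σ` are contained in `Z`.

(2) The same for all embeddings of `k` in the complex numbers.

(3) `InFinite`: all nonconstant entire curves in `X_σ` of finite complexity are contained in `Z`: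
these are the curves whose homogeneous coordinates, in some open set and up to a common factor, are
polynomials in `z`, `1 / q(z)` and the entries of the solutions `y_1, ..., y_s` of iterated systems of
linear differential equations, the coefficients of the system for `y_l` being such polynomials in `z`,
`1 / q(z)` and the entries of `y_1, ..., y_{l-1}`.

(4) `InDFin`: all nonconstant entire curves in `X_σ` whose homogeneous coordinates satisfy linear
differential equations with polynomial coefficients are contained in `Z`.

(5) `InPicardFinite`: all holomorphic maps of finite complexity from the punctured disc to `X_σ`,
which do not extend to the disc, are contained in `Z`.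

(6) `InExp`: all nonconstant maps from the spaces `ℂ^m` to `X_σ` with homogeneous coordinates which
are sums of products of polynomials and exponentials of entire functions are contained in `Z`.

(7) `InRuled`: all uniruled integral closed subvarieties of `X_σ` are contained in `Z`.

(8) `InPtd`: for each point `x` outside of `Z` there are only finitely many nonconstant maps
`(ℙ¹ ∖ {0, ∞}, 1) → (X_σ, x)`.

(9) `FamBound`: for all `s, r, e`, all fields `L` which contain `k` and can be embedded in the complex
numbers, all groups `H` and all families `x(h)`, `h ∈ H`, of points of `X(L)` given by iterated
recurrences of type `(s, r, e)`, at most `B(s, r, e)` different points are outside of `Z`. The bound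
`B(s, r, e)` depends on `n`, `D` and the type only.

(10) `SeqFinite`: the sequences of points of `X(L)`, `L` a number field, with homogeneous coordinates
which are polynomials in `u ^ h` and `u ^ (-h)`, `h ∈ ℤ`, have finitely many points outside of `Z`.

They hold if all nonconstant entire curves in `X_σ` are contained in `Z` (for `Z = ∅`: `X_σ` is
Kobayashi hyperbolic), and they hold if `X(L)` has only finitely many points outside of `Z` for all
number fields `L` (for `Z = ∅`: the other condition of Lang's conjecture).
-/

set_option autoImplicit false

namespace Pool.Agent.Results.MP_f82ddf_nt.UniformLang

open MvPolynomial Pool.Agent.V1153.UR

/-- For all `n` and `D` there is a function `B` such that for all number fields `k`, all embeddings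
`σ` of `k` in `ℂ`, all sets `FF` of forms of degree at most `D` in `n + 1` variables over `k` and all
forms `G` of degree at most `D` over `k`, for the projective variety `X` with the equations `FF` the
following are equivalent: all nonconstant rational curves in `X_σ` are contained in `G = 0`; this holds
for all embeddings of `k`; all nonconstant entire curves in `X_σ` of finite complexity are contained in
`G = 0`; this holds for the entire curves given by linear differential equations, for the maps of
finite complexity from the punctured disc which do not extend, for the maps from the spaces `ℂ^m` given
by sums of products of polynomials and exponentials of entire functions, for the uniruled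
subvarieties; there are only finitely many pointed maps from the punctured line through each point
outside of `G = 0`; the families of points of `X` given by iterated recurrences of type `(s, r, e)`
have at most `B s r e` different points outside of `G = 0`; the sequences of points over number fields
given by polynomials in the powers `u ^ h` have finitely many points outside of `G = 0`. These
properties hold if all nonconstant entire curves in `X_σ` are contained in `G = 0`, and they hold if
there are only finitely many points outside of `G = 0` over each number field. -/
theorem result (n D : ℕ) : ∃ B : ℕ → ℕ → ℕ → ℕ, ∀ (k : Type) [Field k] [NumberField k]
    (σ : k →+* ℂ) (FF : Set (MvPolynomial (Fin (n + 1)) k)) (G : MvPolynomial (Fin (n + 1)) k),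
    (∀ F ∈ FF, ∃ a ≤ D, F.IsHomogeneous a) → (∃ a ≤ D, G.IsHomogeneous a) →
      List.TFAE [RatIn σ FF G, ∀ τ : k →+* ℂ, RatIn τ FF G,
        InFinite (map σ '' FF) 1 (map σ G), InDFin (map σ '' FF) 1 (map σ G),
        InPicardFinite (map σ '' FF) 1 (map σ G), InExp (map σ '' FF) 1 (map σ G),
        InRuled (map σ '' FF) 1 (map σ G), InPtd (map σ '' FF) 1 (map σ G),
        FamBound FF G B, SeqFinite σ FF G] ∧
      (BrodyIn σ FF G ∨ PointsFinite FF G → RatIn σ FF G) :=
  ratIn_all n D

end Pool.Agent.Results.MP_f82ddf_nt.UniformLang
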